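import Mathlib

/-! A summation lemma: dyadic bounds `C log k / k` give bounds for the sums over `[M, N)`. -/

namespace Pool.Agent.Lib.MP_92a7e5_nt

open Finset

theorem sum_inv_Ico_le (K1 : ℕ) (hK1 : 1 ≤ K1) (K2 : ℕ) (h : K1 ≤ K2) :
    ∑ k ∈ Finset.Ico K1 (K2 + 1), (1 : ℝ) / (k : ℝ) ≤
      1 / (K1 : ℝ) + (Real.log K2 - Real.log K1) := by
  induction K2, h using Nat.le_induction with
  | base => simp
  | succ m hm ih =>
    rw [Finset.sum_Ico_succ_top (by omega : K1 ≤ m + 1)]
    have hm0 : (0 : ℝ) < m := by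
      have : 0 < m := by omega
      exact_mod_cast this
    have h1 : (1 : ℝ) / ((m + 1 : ℕ) : ℝ) ≤ Real.log ((m + 1 : ℕ) : ℝ) - Real.log m := by
      rw [← Real.log_div (by positivity) (by positivity)]
      have h2 := Real.one_sub_inv_le_log_of_pos
        (show (0 : ℝ) < ((m + 1 : ℕ) : ℝ) / m by positivity)
      have h3 : 1 - (((m + 1 : ℕ) : ℝ) / m)⁻¹ = 1 / ((m + 1 : ℕ) : ℝ) := by
        push_cast
        field_simp
        ring
      rw [h3] at h2
      exact h2
    linarith

theorem sum_Ico_two_pow (a : ℕ → ℝ) (K1 K2 : ℕ) (h : K1 ≤ K2) :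
    ∑ n ∈ Finset.Ico (2 ^ K1) (2 ^ K2), a n =
      ∑ k ∈ Finset.Ico K1 K2, ∑ n ∈ Finset.Ico (2 ^ k) (2 ^ (k + 1)), a n := by
  induction K2, h using Nat.le_induction with
  | base => simp
  | succ m hm ih =>
    rw [Finset.sum_Ico_succ_top hm, ← ih]
    rw [Finset.sum_Ico_consecutive a (Nat.pow_le_pow_right (by norm_num) hm)
      (Nat.pow_le_pow_right (by norm_num) (Nat.le_succ m))]

/-- From dyadic bounds `C log k / k` to intervals `[M, N)`. -/
theorem sum_le_of_dyadic (a : ℕ → ℝ) (ha : ∀ n, 0 ≤ a n) (C : ℝ) (hC : 0 < C) (k0 : ℕ)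
    (hk : ∀ k, k0 ≤ k → ∑ n ∈ Finset.Ico (2 ^ k) (2 ^ (k + 1)), a n ≤ C * (Real.log k / k)) :
    ∃ C' : ℝ, 0 < C' ∧ ∃ N0 : ℕ, ∀ M N : ℕ, N0 ≤ M → M ≤ N →
      ∑ n ∈ Finset.Ico M N, a n ≤
        C' * (Real.log (Real.log N) *
          (Real.log (Real.log N) - Real.log (Real.log M) + 1 / Real.log M)) := by
  refine ⟨6 * C, by positivity, max (2 ^ (k0 + 1)) 32, ?_⟩
  intro M N hM hMN
  have hM1 : 2 ^ (k0 + 1) ≤ M := le_trans (le_max_left _ _) hM
  have hM2 : 32 ≤ M := le_trans (le_max_right _ _) hM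
  set K1 := Nat.log 2 M with hK1d
  set K2 := Nat.log 2 N with hK2d
  have hMne : M ≠ 0 := by omega
  have hNne : N ≠ 0 := by omega
  have hK12 : K1 ≤ K2 := Nat.log_mono_right hMN
  have hk0 : k0 ≤ K1 := by
    have : k0 + 1 ≤ K1 := (Nat.le_log_iff_pow_le (by norm_num) hMne).2 hM1
    omega
  have hK1five : 5 ≤ K1 := (Nat.le_log_iff_pow_le (by norm_num) hMne).2 (by norm_num; exact hM2)
  have hlow : 2 ^ K1 ≤ M := Nat.pow_log_le_self 2 hMne
  have hMlt : M < 2 ^ (K1 + 1) := Nat.lt_pow_succ_log_self (by norm_num) M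
  have hNlow : 2 ^ K2 ≤ N := Nat.pow_log_le_self 2 hNne
  have hNlt : N < 2 ^ (K2 + 1) := Nat.lt_pow_succ_log_self (by norm_num) N
  -- real quantities
  have hl2 : (0 : ℝ) < Real.log 2 := Real.log_pos (by norm_num)
  have hl2a : Real.log 2 < 0.6931471808 := Real.log_two_lt_d9
  have hl2b : 0.6931471803 < Real.log 2 := Real.log_two_gt_d9
  set L : ℝ := Real.log N with hL
  set l : ℝ := Real.log M with hl
  have hMpos : (0 : ℝ) < M := by exact_mod_cast Nat.pos_of_ne_zero hMne
  have hNpos : (0 : ℝ) < N := by exact_mod_cast Nat.pos_of_ne_zero hNne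
  have hl3 : 3.4 ≤ l := by
    have h32 : Real.log ((2 : ℝ) ^ (5 : ℕ)) ≤ l := by
      apply Real.log_le_log (by norm_num)
      have : (32 : ℝ) ≤ M := by exact_mod_cast hM2
      calc ((2 : ℝ) ^ (5 : ℕ)) = 32 := by norm_num
        _ ≤ M := this
    rw [Real.log_pow] at h32
    push_cast at h32
    linarith
  have hlL : l ≤ L := Real.log_le_log hMpos (by exact_mod_cast hMN)
  have hL3 : 3.4 ≤ L := hl3.trans hlL
  have hK2le : (K2 : ℝ) * Real.log 2 ≤ L := by
    have h1 : Real.log ((2 : ℝ) ^ K2) ≤ L := by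
      apply Real.log_le_log (by positivity)
      exact_mod_cast hNlow
    rwa [Real.log_pow] at h1
  have hK1ge : l ≤ ((K1 : ℝ) + 1) * Real.log 2 := by
    have h1 : l ≤ Real.log ((2 : ℝ) ^ (K1 + 1)) := by
      apply Real.log_le_log hMpos
      exact_mod_cast hMlt.le
    rw [Real.log_pow] at h1
    push_cast at h1
    exact h1
  have hK1pos : (0 : ℝ) < K1 := by
    have : 0 < K1 := by omega
    exact_mod_cast this
  have hK2pos : (0 : ℝ) < K2 := by
    have : 0 < K2 := by omega
    exact_mod_cast this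
  -- K1 ≥ l
  have hK1l : l ≤ K1 := by
    nlinarith
  -- log K2 ≤ 2 log L
  have hlogL1 : 1 ≤ Real.log L := by
    rw [Real.le_log_iff_exp_le (by linarith)]
    have := Real.exp_one_lt_d9
    linarith
  have hlogK2 : Real.log K2 ≤ 2 * Real.log L := by
    have h1 : (K2 : ℝ) ≤ L * 2 := by nlinarith
    have h2 : (K2 : ℝ) ≤ L ^ 2 := by nlinarith
    have h3 : Real.log K2 ≤ Real.log (L ^ 2) := Real.log_le_log hK2pos h2
    rw [Real.log_pow] at h3
    exact_mod_cast h3
  have hlogK2nn : 0 ≤ Real.log K2 := Real.log_natCast_nonneg _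
  -- log K2 - log K1
  have hdiff : Real.log K2 - Real.log K1 ≤ Real.log L - Real.log l + 2 / l := by
    have hlp : (0 : ℝ) < l := by linarith
    have hLp : (0 : ℝ) < L := by linarith
    have hd : 0 < l - Real.log 2 := by linarith
    have h1 : Real.log K2 + Real.log (Real.log 2) ≤ Real.log L := by
      rw [← Real.log_mul (by positivity) (by positivity)]
      exact Real.log_le_log (by positivity) hK2le
    have h2 : Real.log (l - Real.log 2) ≤ Real.log K1 + Real.log (Real.log 2) := by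
      rw [← Real.log_mul (by positivity) (by positivity)]
      apply Real.log_le_log hd
      linarith
    have h3 : Real.log l - Real.log (l - Real.log 2) ≤ 2 / l := by
      rw [← Real.log_div (by positivity) (by positivity)]
      have h4 := Real.log_le_sub_one_of_pos (show 0 < l / (l - Real.log 2) by positivity)
      refine h4.trans ?_
      have h5 : l / (l - Real.log 2) - 1 = Real.log 2 / (l - Real.log 2) := by
        field_simp
        ring
      rw [h5, div_le_div_iff₀ hd hlp]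
      nlinarith
    linarith
  -- assemble
  have hmain : ∑ n ∈ Finset.Ico M N, a n ≤ C * (Real.log K2 * (1 / (K1 : ℝ) +
      (Real.log K2 - Real.log K1))) := by
    calc ∑ n ∈ Finset.Ico M N, a n
        ≤ ∑ n ∈ Finset.Ico (2 ^ K1) (2 ^ (K2 + 1)), a n := by
          refine Finset.sum_le_sum_of_subset_of_nonneg ?_ fun n _ _ => ha n
          exact Finset.Ico_subset_Ico hlow hNlt.le
      _ = ∑ k ∈ Finset.Ico K1 (K2 + 1), ∑ n ∈ Finset.Ico (2 ^ k) (2 ^ (k + 1)), a n :=
          sum_Ico_two_pow a K1 (K2 + 1) (by omega)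
      _ ≤ ∑ k ∈ Finset.Ico K1 (K2 + 1), C * (Real.log K2 * (1 / (k : ℝ))) := by
          refine Finset.sum_le_sum fun k hkm => ?_
          obtain ⟨hk1, hk2⟩ := Finset.mem_Ico.1 hkm
          refine (hk k (hk0.trans hk1)).trans ?_
          have hkp : (0 : ℝ) < k := by
            have : 0 < k := by omega
            exact_mod_cast this
          have : Real.log k ≤ Real.log K2 := by
            apply Real.log_le_log hkp
            have : k ≤ K2 := by omega
            exact_mod_cast this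
          apply mul_le_mul_of_nonneg_left _ hC.le
          rw [div_eq_mul_one_div]
          exact mul_le_mul_of_nonneg_right this (by positivity)
      _ = C * (Real.log K2 * ∑ k ∈ Finset.Ico K1 (K2 + 1), 1 / (k : ℝ)) := by
          rw [Finset.mul_sum, Finset.mul_sum]
      _ ≤ _ := by
          apply mul_le_mul_of_nonneg_left _ hC.le
          apply mul_le_mul_of_nonneg_left _ hlogK2nn
          exact sum_inv_Ico_le K1 (by omega) K2 hK12
  have hlp : (0 : ℝ) < l := by linarith
  have hinv : 1 / (K1 : ℝ) ≤ 1 / l := one_div_le_one_div_of_le hlp hK1l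
  have hll : Real.log l ≤ Real.log L := Real.log_le_log hlp hlL
  have hKK : 0 ≤ Real.log K2 - Real.log K1 := by
    have := Real.log_le_log hK1pos (show (K1 : ℝ) ≤ K2 by exact_mod_cast hK12)
    linarith
  have hsecond : 1 / (K1 : ℝ) + (Real.log K2 - Real.log K1) ≤
      3 * (Real.log L - Real.log l + 1 / l) := by
    have e : (2 : ℝ) / l = 2 * (1 / l) := by ring
    rw [e] at hdiff
    linarith
  have hsec0 : 0 ≤ 1 / (K1 : ℝ) + (Real.log K2 - Real.log K1) := by
    have : 0 ≤ 1 / (K1 : ℝ) := by positivity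
    linarith
  have hprod : Real.log K2 * (1 / (K1 : ℝ) + (Real.log K2 - Real.log K1)) ≤
      (2 * Real.log L) * (3 * (Real.log L - Real.log l + 1 / l)) :=
    mul_le_mul hlogK2 hsecond hsec0 (by linarith)
  calc ∑ n ∈ Finset.Ico M N, a n ≤ _ := hmain
    _ ≤ C * ((2 * Real.log L) * (3 * (Real.log L - Real.log l + 1 / l))) :=
        mul_le_mul_of_nonneg_left hprod hC.le
    _ = _ := by ring

end Pool.Agent.Lib.MP_92a7e5_nt
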