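import Mathlib

set_option autoImplicit false

namespace Pool.Agent.Lib.MP_92a7e5_nt

/-- a Chebyshev bound for the primes -/
lemma nth_prime_le : ∃ C : ℝ, 0 < C ∧ ∃ N0 : ℕ, ∀ N : ℕ, N0 ≤ N →
    (Nat.nth Nat.Prime N : ℝ) ≤ C * N * Real.log N := by
  refine ⟨32, by norm_num, 64, fun N hN => ?_⟩
  set p : ℕ := Nat.nth Nat.Prime N with hp
  have hpp : p.Prime := Nat.prime_nth_prime N
  have hNp : N ≤ p := (Nat.nth_strictMono Nat.infinite_setOfPred_prime).le_apply
  have hN' : (64 : ℝ) ≤ N := by exact_mod_cast hN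
  have hNp' : (N : ℝ) ≤ p := by exact_mod_cast hNp
  have hp64 : (64 : ℝ) ≤ p := hN'.trans hNp'
  have hp0 : (0 : ℝ) < p := by linarith
  -- the number of primes
  have hcount : Nat.primeCounting p = N + 1 := by
    unfold Nat.primeCounting Nat.primeCounting'
    rw [Nat.count_succ, if_pos hpp, hp, Nat.count_nth_of_infinite Nat.infinite_setOfPred_prime]
  have h1 := Chebyshev.psi_ge p
  have h2 := Chebyshev.psi_le_primeCounting_mul_log p
  rw [hcount] at h2
  push_cast at h2
  have hl2 : (0.69 : ℝ) < Real.log 2 := by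
    have := Real.log_two_gt_d9
    linarith
  have hl2' : Real.log 2 < (0.7 : ℝ) := by
    have := Real.log_two_lt_d9
    linarith
  have h3 : Real.log ((p : ℝ) + 1) ≤ ((p : ℝ) + 1) / 8 + 1.1 := by
    have e1 : (p : ℝ) + 1 = 8 * (((p : ℝ) + 1) / 8) := by ring
    have e2 : Real.log (8 : ℝ) = 3 * Real.log 2 := by
      rw [show (8 : ℝ) = 2 ^ 3 by norm_num, Real.log_pow]; norm_num
    have e3 := Real.log_le_sub_one_of_pos (show (0 : ℝ) < ((p : ℝ) + 1) / 8 by positivity)
    rw [e1, Real.log_mul (by norm_num) (by positivity), e2, ← e1]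
    linarith
  have h4 : (p : ℝ) / 4 ≤ ((N : ℝ) + 1) * Real.log p := by
    have e1 : (p : ℝ) * 0.69 ≤ p * Real.log 2 := by nlinarith
    have e2 : (p : ℝ) * Real.log 2 - Real.log ((p : ℝ) + 1) ≤ ((N : ℝ) + 1) * Real.log p :=
      h1.trans h2
    linarith
  -- a crude bound for the logarithm
  have hs0 : 0 < Real.sqrt p := Real.sqrt_pos.2 hp0
  have hs : Real.sqrt p * Real.sqrt p = p := Real.mul_self_sqrt hp0.le
  have h5 : Real.log p ≤ 2 * Real.sqrt p := by
    have e1 := Real.log_le_sub_one_of_pos hs0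
    have e2 : Real.log p = 2 * Real.log (Real.sqrt p) := by
      rw [Real.log_sqrt hp0.le]; ring
    rw [e2]
    linarith
  have h6 : Real.sqrt p ≤ 8 * ((N : ℝ) + 1) := by
    have e1 : Real.sqrt p * Real.sqrt p ≤ 8 * ((N : ℝ) + 1) * Real.sqrt p := by
      rw [hs]
      have : ((N : ℝ) + 1) * Real.log p ≤ ((N : ℝ) + 1) * (2 * Real.sqrt p) :=
        mul_le_mul_of_nonneg_left h5 (by positivity)
      linarith
    exact le_of_mul_le_mul_right e1 hs0
  have h7 : (p : ℝ) ≤ (N : ℝ) ^ 4 := by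
    have e1 : (p : ℝ) ≤ (8 * ((N : ℝ) + 1)) * (8 * ((N : ℝ) + 1)) := by
      rw [← hs]
      exact mul_le_mul h6 h6 hs0.le (by positivity)
    have e2 : (N : ℝ) + 1 ≤ 2 * N := by linarith
    have e3 : (8 * ((N : ℝ) + 1)) * (8 * ((N : ℝ) + 1)) ≤ (16 * N) * (16 * N) := by
      apply mul_le_mul <;> first | positivity | linarith
    have e4 : (256 : ℝ) ≤ N * N := by nlinarith
    have e5 : (16 * (N : ℝ)) * (16 * N) ≤ (N * N) * (N * N) := by
      have : (0 : ℝ) ≤ (N : ℝ) * N := by positivity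
      nlinarith
    calc (p : ℝ) ≤ _ := e1
      _ ≤ _ := e3
      _ ≤ _ := e5
      _ = (N : ℝ) ^ 4 := by ring
  have h8 : Real.log p ≤ 4 * Real.log N := by
    have := Real.log_le_log hp0 h7
    rw [Real.log_pow] at this
    exact_mod_cast this
  have hlog : 0 ≤ Real.log N := Real.log_nonneg (by linarith)
  have h9 : ((N : ℝ) + 1) * Real.log p ≤ (2 * N) * (4 * Real.log N) := by
    have e0 : 0 ≤ Real.log p := Real.log_nonneg (by linarith)
    apply mul_le_mul (by linarith) h8 e0 (by positivity)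
  linarith

end Pool.Agent.Lib.MP_92a7e5_nt
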