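import Mathlib

set_option autoImplicit false

namespace Pool.Agent.Lib.MP_92a7e5_nt

open Filter Topology

lemma exists_block (N : ℕ → ℕ) (hN : StrictMono N) (J n : ℕ) (hn : N J ≤ n) :
    ∃ j, J ≤ j ∧ N j ≤ n ∧ n < N (j + 1) := by
  classical
  have hJ : J ≤ n := le_trans hN.le_apply hn
  refine ⟨Nat.findGreatest (fun j => N j ≤ n) n, ?_, ?_, ?_⟩
  · exact Nat.le_findGreatest hJ hn
  · exact Nat.findGreatest_spec (P := fun j => N j ≤ n) hJ hn
  · by_contra hcon
    push Not at hcon
    have h1 : Nat.findGreatest (fun j => N j ≤ n) n + 1 ≤ n := le_trans hN.le_apply hcon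
    exact Nat.findGreatest_is_greatest (P := fun j => N j ≤ n) (Nat.lt_succ_self _) h1 hcon

theorem tendsto_iff_sparse (a : ℕ → ℝ) (C' : ℝ) (N0 : ℕ)
    (hF : ∀ M N : ℕ, N0 ≤ M → M ≤ N → ∑ n ∈ Finset.Ico M N, |a n| ≤
      C' * (Real.log (Real.log N) *
        (Real.log (Real.log N) - Real.log (Real.log M) + 1 / Real.log M)))
    (N : ℕ → ℕ) (hN : StrictMono N)
    (h : Filter.Tendsto (fun j => Real.log (Real.log (N (j+1))) *
      (Real.log (Real.log (N (j+1))) - Real.log (Real.log (N j)))) Filter.atTop (nhds 0))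
    (s : ℝ) :
    Filter.Tendsto (fun n => ∑ k ∈ Finset.range n, a k) Filter.atTop (nhds s) ↔
      Filter.Tendsto (fun j => ∑ k ∈ Finset.range (N j), a k) Filter.atTop (nhds s) := by
  constructor
  · intro hs
    exact hs.comp hN.tendsto_atTop
  · intro hs
    -- `L j = log log N j`, `x j = log N j`
    have hNt : Tendsto (fun j => ((N j : ℕ) : ℝ)) atTop atTop :=
      tendsto_natCast_atTop_atTop.comp hN.tendsto_atTop
    have hx : Tendsto (fun j => Real.log (N j)) atTop atTop := Real.tendsto_log_atTop.comp hNt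
    have hL : Tendsto (fun j => Real.log (Real.log (N j))) atTop atTop :=
      Real.tendsto_log_atTop.comp hx
    have hL1 : Tendsto (fun j => Real.log (Real.log (N (j + 1)))) atTop atTop :=
      hL.comp (tendsto_add_atTop_nat 1)
    -- `(log x + 1) / x → 0`
    have hdiv : Tendsto (fun x : ℝ => (Real.log x + 1) / x) atTop (𝓝 0) := by
      have h1 : Tendsto (fun x : ℝ => Real.log x / x) atTop (𝓝 0) := by
        have := Real.tendsto_pow_log_div_mul_add_atTop 1 0 1 one_ne_zero
        simpa using this
      have h2 : Tendsto (fun x : ℝ => 1 / x) atTop (𝓝 0) := by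
        simpa using tendsto_inv_atTop_zero (𝕜 := ℝ)
      have h3 := h1.add h2
      simp only [add_zero] at h3
      refine h3.congr fun x => ?_
      rw [add_div]
    have hQb : Tendsto (fun j => (Real.log (Real.log (N j)) + 1) / Real.log (N j)) atTop (𝓝 0) :=
      hdiv.comp hx
    have hQ : Tendsto (fun j => Real.log (Real.log (N (j + 1))) * (1 / Real.log (N j))) atTop
        (𝓝 0) := by
      refine squeeze_zero' ?_ ?_ hQb
      · filter_upwards [hL1.eventually_ge_atTop 0, hx.eventually_gt_atTop 0] with j h1 h2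
        positivity
      · filter_upwards [hL1.eventually_ge_atTop 1, hx.eventually_gt_atTop 0,
          h.eventually (eventually_le_nhds (show (0 : ℝ) < 1 by norm_num))] with j h1 h2 h3
        have hmono : Real.log (Real.log (N j)) ≤ Real.log (Real.log (N (j + 1))) := by
          apply Real.log_le_log h2
          apply Real.log_le_log
          · by_contra hc
            have : ((N j : ℕ) : ℝ) = 0 := le_antisymm (not_lt.mp hc) (Nat.cast_nonneg _)
            rw [this] at h2
            simp at h2
          · exact_mod_cast (hN (Nat.lt_succ_self j)).le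
        have h4 : Real.log (Real.log (N (j + 1))) - Real.log (Real.log (N j)) ≤ 1 := by
          nlinarith
        rw [mul_one_div]
        apply div_le_div_of_nonneg_right _ h2.le
        linarith
    have hg : Tendsto (fun j => C' * (Real.log (Real.log (N (j + 1))) *
        (Real.log (Real.log (N (j + 1))) - Real.log (Real.log (N j)) + 1 / Real.log (N j))))
        atTop (𝓝 0) := by
      have h5 := (h.add hQ).const_mul C'
      simp only [add_zero, mul_zero] at h5
      refine h5.congr fun j => ?_
      ring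
    rw [Metric.tendsto_atTop] at hs ⊢
    intro ε hε
    obtain ⟨J1, hJ1⟩ := hs (ε / 2) (by positivity)
    obtain ⟨J2, hJ2⟩ := (Metric.tendsto_atTop.mp hg) (ε / 2) (by positivity)
    obtain ⟨J3, hJ3⟩ := (tendsto_atTop.mp hN.tendsto_atTop N0).exists_forall_of_atTop
    refine ⟨N (max J1 (max J2 J3)), fun n hn => ?_⟩
    obtain ⟨j, hj, hjn, hnj⟩ := exists_block N hN _ n hn
    have e1 : J1 ≤ j := le_trans (le_max_left _ _) hj
    have e2 : J2 ≤ j := le_trans (le_trans (le_max_left _ _) (le_max_right _ _)) hj
    have e3 : J3 ≤ j := le_trans (le_trans (le_max_right _ _) (le_max_right _ _)) hj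
    have f1 := hJ1 j e1
    have f2 := hJ2 j e2
    have f3 := hF (N j) (N (j + 1)) (hJ3 j e3) (hN (Nat.lt_succ_self j)).le
    have f4 : |∑ k ∈ Finset.range n, a k - ∑ k ∈ Finset.range (N j), a k| ≤
        ∑ k ∈ Finset.Ico (N j) (N (j + 1)), |a k| := by
      rw [← Finset.sum_Ico_eq_sub _ hjn]
      refine le_trans (Finset.abs_sum_le_sum_abs _ _) ?_
      apply Finset.sum_le_sum_of_subset_of_nonneg
      · exact Finset.Ico_subset_Ico le_rfl hnj.le
      · intro i _ _
        exact abs_nonneg _
    rw [Real.dist_eq] at f1 f2 ⊢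
    rw [sub_zero] at f2
    have f5 := lt_of_le_of_lt (le_abs_self _) f2
    have f6 : ∑ k ∈ Finset.range n, a k - s = (∑ k ∈ Finset.range n, a k -
      ∑ k ∈ Finset.range (N j), a k) + (∑ k ∈ Finset.range (N j), a k - s) := by ring
    rw [f6]
    refine lt_of_le_of_lt (abs_add_le _ _) ?_
    linarith

end Pool.Agent.Lib.MP_92a7e5_nt
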