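import Pool.Agent.Lib.MP_92a7e5_nt.Gaps
import Pool.Agent.Lib.MP_92a7e5_nt.NthPrime
import Pool.Agent.Lib.MP_92a7e5_nt.Dyadic
import Pool.Agent.Lib.MP_92a7e5_nt.Sparse

set_option autoImplicit false

/-!
The criterion for the convergence of the alternating series over reciprocal prime gaps.
-/

open Finset Filter

namespace Pool.Agent.Lib.MP_92a7e5_nt

/-- the terms of the series (indices from 0) -/
noncomputable def term (k : ℕ) : ℝ :=
  (-1 : ℝ) ^ (k + 1) /
    (((k : ℝ) + 1) * ((Nat.nth Nat.Prime (k + 1) : ℝ) - (Nat.nth Nat.Prime k : ℝ)))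

lemma cast_gap (k : ℕ) : ((Nat.nth Nat.Prime (k + 1) : ℝ) - (Nat.nth Nat.Prime k : ℝ)) = gap k := by
  rw [← nth_add_gap k]
  push_cast
  ring

lemma abs_term (k : ℕ) : |term k| = 1 / (((k : ℝ) + 1) * (gap k : ℝ)) := by
  unfold term
  rw [cast_gap, abs_div, abs_pow, abs_neg, abs_one, one_pow]
  congr 1
  apply abs_of_nonneg
  positivity

/-- the modulus: the sum of `1/(n g_n)` over a range -/
theorem modulus : ∃ C' : ℝ, 0 < C' ∧ ∃ N0 : ℕ, ∀ M N : ℕ, N0 ≤ M → M ≤ N →
    ∑ n ∈ Finset.Ico M N, |term n| ≤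
      C' * (Real.log (Real.log N) * (Real.log (Real.log N) - Real.log (Real.log M) +
        1 / Real.log M)) := by
  obtain ⟨C, hC, k0, hk0⟩ := block_sum nth_prime_le
  obtain ⟨C', hC', N0, hN0⟩ := sum_le_of_dyadic (fun n : ℕ => 1 / (((n : ℝ) + 1) * (gap n : ℝ)))
    (fun n => by positivity) C hC k0 hk0
  refine ⟨C', hC', N0, fun M N hM hMN => ?_⟩
  refine le_trans (le_of_eq ?_) (hN0 M N hM hMN)
  exact Finset.sum_congr rfl fun n _ => abs_term n

theorem main (N : ℕ → ℕ) (hN : StrictMono N)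
    (h : Tendsto (fun j => Real.log (Real.log (N (j + 1))) *
      (Real.log (Real.log (N (j + 1))) - Real.log (Real.log (N j)))) atTop (nhds 0)) (s : ℝ) :
    Tendsto (fun n => ∑ k ∈ range n, term k) atTop (nhds s) ↔
      Tendsto (fun j => ∑ k ∈ range (N j), term k) atTop (nhds s) := by
  obtain ⟨C', _, N0, hF⟩ := modulus
  exact tendsto_iff_sparse term C' N0 hF N hN h s

end Pool.Agent.Lib.MP_92a7e5_nt
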