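import Mathlib

set_option autoImplicit false

/-!
Prime gaps: definition and first facts.
-/

namespace Pool.Agent.Lib.MP_92a7e5_nt

/-- the prime gap `p_{n+1} - p_n` (indices from 0) -/
noncomputable def gap (n : ℕ) : ℕ := Nat.nth Nat.Prime (n + 1) - Nat.nth Nat.Prime n

lemma nth_lt_succ (r : ℕ) : Nat.nth Nat.Prime r < Nat.nth Nat.Prime (r + 1) :=
  Nat.nth_strictMono Nat.infinite_setOfPred_prime (Nat.lt_succ_self r)

lemma gap_pos (n : ℕ) : 1 ≤ gap n := by
  have := nth_lt_succ n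
  unfold gap
  omega

lemma nth_add_gap (n : ℕ) : Nat.nth Nat.Prime n + gap n = Nat.nth Nat.Prime (n + 1) := by
  have := nth_lt_succ n
  unfold gap
  omega

lemma nth_ge (n : ℕ) : n + 2 ≤ Nat.nth Nat.Prime n := by
  induction n with
  | zero => rw [Nat.nth_prime_zero_eq_two]
  | succ n ih =>
    have := nth_lt_succ n
    omega

lemma two_dvd_gap (n : ℕ) (hn : 1 ≤ n) : 2 ∣ gap n := by
  have h1 := nth_ge n
  have h2 := nth_ge (n + 1)
  have o1 := (Nat.prime_nth_prime n).eq_two_or_odd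
  have o2 := (Nat.prime_nth_prime (n + 1)).eq_two_or_odd
  have h3 := nth_add_gap n
  omega

end Pool.Agent.Lib.MP_92a7e5_nt
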