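import Mathlib

/-! `∑_{h ≤ H} h / φ(h) ≤ 4 H`, by `h / φ(h) ≤ 2 ∑_{d ∣ h} 1/d`. -/

namespace Pool.Agent.Lib.MP_92a7e5_nt

open Finset

theorem prod_sq_ratio_le (S : Finset ℕ) (hS : ∀ p ∈ S, 2 ≤ p) :
    ∏ p ∈ S, ((p : ℝ) ^ 2 / ((p : ℝ) ^ 2 - 1)) ≤ 2 * ((S.card : ℝ) + 1) / ((S.card : ℝ) + 2) := by
  classical
  induction S using Finset.induction_on_max with
  | empty => norm_num
  | insert a S hmax ih =>
    have haS : a ∉ S := fun h => lt_irrefl _ (hmax a h)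
    rw [Finset.prod_insert haS, Finset.card_insert_of_notMem haS]
    have h1 := ih fun p hp => hS p (Finset.mem_insert_of_mem hp)
    have hcard : S.card + 2 ≤ a := by
      have hsub : S ⊆ Finset.Ico 2 a := fun p hp =>
        Finset.mem_Ico.2 ⟨hS p (Finset.mem_insert_of_mem hp), hmax p hp⟩
      have := Finset.card_le_card hsub
      rw [Nat.card_Ico] at this
      have ha2 := hS a (Finset.mem_insert_self _ _)
      omega
    have hc : (S.card : ℝ) + 2 ≤ a := by exact_mod_cast hcard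
    have hk : (0 : ℝ) ≤ S.card := Nat.cast_nonneg _
    set c : ℝ := (S.card : ℝ) with hcdef
    have hsq : (c + 2) ^ 2 ≤ (a : ℝ) ^ 2 := by
      apply pow_le_pow_left₀ (by linarith) hc
    have hc1 : (0 : ℝ) < (c + 1) * (c + 3) := by positivity
    have ha1 : (0 : ℝ) < (a : ℝ) ^ 2 - 1 := by nlinarith
    have h2 : (a : ℝ) ^ 2 / ((a : ℝ) ^ 2 - 1) ≤ (c + 2) ^ 2 / ((c + 1) * (c + 3)) := by
      rw [div_le_div_iff₀ ha1 hc1]
      nlinarith only [hsq]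
    calc (a : ℝ) ^ 2 / ((a : ℝ) ^ 2 - 1) * ∏ p ∈ S, ((p : ℝ) ^ 2 / ((p : ℝ) ^ 2 - 1))
        ≤ (c + 2) ^ 2 / ((c + 1) * (c + 3)) * (2 * (c + 1) / (c + 2)) := by
          apply mul_le_mul h2 h1
          · refine Finset.prod_nonneg fun p hp => ?_
            have : (2 : ℝ) ≤ p := by exact_mod_cast hS p (Finset.mem_insert_of_mem hp)
            exact div_nonneg (by positivity) (by nlinarith)
          · positivity
      _ = 2 * (((S.card + 1 : ℕ) : ℝ) + 1) / (((S.card + 1 : ℕ) : ℝ) + 2) := by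
          push_cast
          rw [← hcdef]
          have e1 : c + 1 ≠ 0 := by positivity
          have e2 : c + 2 ≠ 0 := by positivity
          have e3 : c + 3 ≠ 0 := by positivity
          have e4 : c + 1 + 2 ≠ 0 := by positivity
          field_simp
          ring

theorem prod_one_add_inv_le (h : ℕ) (hh : h ≠ 0) :
    ∏ p ∈ h.primeFactors, (1 + ((p : ℝ))⁻¹) ≤ ∑ d ∈ h.divisors, ((d : ℝ))⁻¹ := by
  classical
  rw [Finset.prod_one_add]
  have hinj : Set.InjOn (fun t : Finset ℕ => ∏ p ∈ t, p) (h.primeFactors.powerset : Set (Finset ℕ)) := by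
    intro s hs t ht hst
    have hs' : ∀ p ∈ s, p.Prime := fun p hp =>
      Nat.prime_of_mem_primeFactors (Finset.mem_powerset.1 hs hp)
    have ht' : ∀ p ∈ t, p.Prime := fun p hp =>
      Nat.prime_of_mem_primeFactors (Finset.mem_powerset.1 ht hp)
    have e1 := Nat.primeFactors_prod hs'
    have e2 := Nat.primeFactors_prod ht'
    simp only at hst
    rw [← e1, ← e2, hst]
  have hsum : ∑ t ∈ h.primeFactors.powerset, ∏ i ∈ t, ((i : ℝ))⁻¹ =
      ∑ d ∈ h.primeFactors.powerset.image (fun t : Finset ℕ => ∏ p ∈ t, p), ((d : ℝ))⁻¹ := by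
    rw [Finset.sum_image hinj]
    refine Finset.sum_congr rfl fun t _ => ?_
    rw [Nat.cast_prod, Finset.prod_inv_distrib]
  rw [hsum]
  refine Finset.sum_le_sum_of_subset_of_nonneg ?_ fun d _ _ => by positivity
  intro d hd
  obtain ⟨t, ht, rfl⟩ := Finset.mem_image.1 hd
  refine Nat.mem_divisors.2 ⟨?_, hh⟩
  exact (Finset.prod_dvd_prod_of_subset _ _ _ (Finset.mem_powerset.1 ht)).trans
    (Nat.prod_primeFactors_dvd h)

theorem div_totient_le (h : ℕ) (hh : h ≠ 0) :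
    (h : ℝ) / (Nat.totient h : ℝ) ≤ 2 * ∑ d ∈ h.divisors, ((d : ℝ))⁻¹ := by
  classical
  have htot : (Nat.totient h : ℝ) = h * ∏ p ∈ h.primeFactors, (1 - ((p : ℝ))⁻¹) := by
    have := Nat.totient_eq_mul_prod_factors h
    have h2 := congrArg (fun q : ℚ => (q : ℝ)) this
    push_cast at h2
    exact h2
  have hh' : (h : ℝ) ≠ 0 := by exact_mod_cast hh
  have hp2 : ∀ p ∈ h.primeFactors, (2 : ℝ) ≤ p := fun p hp => by
    exact_mod_cast (Nat.prime_of_mem_primeFactors hp).two_le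
  have hprod : (h : ℝ) / (Nat.totient h : ℝ) =
      (∏ p ∈ h.primeFactors, (1 + ((p : ℝ))⁻¹)) *
        ∏ p ∈ h.primeFactors, ((p : ℝ) ^ 2 / ((p : ℝ) ^ 2 - 1)) := by
    rw [htot, ← Finset.prod_mul_distrib]
    have e : (h : ℝ) / (h * ∏ p ∈ h.primeFactors, (1 - ((p : ℝ))⁻¹)) =
        (∏ p ∈ h.primeFactors, (1 - ((p : ℝ))⁻¹))⁻¹ := by
      rw [div_mul_eq_div_div, div_self hh', one_div]
    rw [e, ← Finset.prod_inv_distrib]
    refine Finset.prod_congr rfl fun p hp => ?_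
    have h2 := hp2 p hp
    have e1 : (p : ℝ) ≠ 0 := by positivity
    have e2 : (p : ℝ) - 1 ≠ 0 := by linarith
    have e3 : (p : ℝ) + 1 ≠ 0 := by positivity
    have e4 : (p : ℝ) ^ 2 - 1 = ((p : ℝ) - 1) * (p + 1) := by ring
    have e5 : 1 - ((p : ℝ))⁻¹ = (p - 1) / p := by field_simp
    have e6 : 1 + ((p : ℝ))⁻¹ = (p + 1) / p := by field_simp
    rw [e4, e5, e6]
    field_simp
  rw [hprod]
  have hA := prod_one_add_inv_le h hh
  have hB : ∏ p ∈ h.primeFactors, ((p : ℝ) ^ 2 / ((p : ℝ) ^ 2 - 1)) ≤ 2 := by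
    refine (prod_sq_ratio_le _ fun p hp => (Nat.prime_of_mem_primeFactors hp).two_le).trans ?_
    rw [div_le_iff₀ (by positivity)]
    nlinarith [(Nat.cast_nonneg (h.primeFactors.card) : (0 : ℝ) ≤ (h.primeFactors.card : ℝ))]
  have hA0 : 0 ≤ ∑ d ∈ h.divisors, ((d : ℝ))⁻¹ :=
    Finset.sum_nonneg fun d _ => by positivity
  have hB0 : 0 ≤ ∏ p ∈ h.primeFactors, ((p : ℝ) ^ 2 / ((p : ℝ) ^ 2 - 1)) := by
    refine Finset.prod_nonneg fun p hp => ?_
    have := hp2 p hp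
    exact div_nonneg (by positivity) (by nlinarith)
  calc _ ≤ (∑ d ∈ h.divisors, ((d : ℝ))⁻¹) * 2 := mul_le_mul hA hB hB0 hA0
    _ = _ := by ring

theorem sum_sum_divisors_inv_le (H : ℕ) :
    ∑ h ∈ Finset.Icc 1 H, ∑ d ∈ h.divisors, ((d : ℝ))⁻¹ ≤ 2 * H := by
  classical
  have h1 : ∑ h ∈ Finset.Icc 1 H, ∑ d ∈ h.divisors, ((d : ℝ))⁻¹ =
      ∑ d ∈ Finset.Icc 1 H, ∑ h ∈ (Finset.Icc 1 H).filter (fun h => d ∣ h), ((d : ℝ))⁻¹ := by
    refine Finset.sum_comm' ?_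
    intro h d
    simp only [Finset.mem_Icc, Nat.mem_divisors, Finset.mem_filter]
    constructor
    · rintro ⟨⟨h1, h2⟩, h3, h4⟩
      exact ⟨⟨⟨h1, h2⟩, h3⟩, Nat.pos_of_dvd_of_pos h3 h1, (Nat.le_of_dvd h1 h3).trans h2⟩
    · rintro ⟨⟨⟨h1, h2⟩, h3⟩, h4, h5⟩
      exact ⟨⟨h1, h2⟩, h3, by omega⟩
  rw [h1]
  have h2 : ∀ d ∈ Finset.Icc 1 H,
      ∑ h ∈ (Finset.Icc 1 H).filter (fun h => d ∣ h), ((d : ℝ))⁻¹ ≤ H * ((d : ℝ) ^ 2)⁻¹ := by
    intro d hd
    rw [Finset.sum_const, nsmul_eq_mul]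
    have hc : ((Finset.Icc 1 H).filter (fun h => d ∣ h)).card = H / d :=
      Nat.Ioc_filter_dvd_card_eq_div H d
    rw [hc]
    have hd1 : (0 : ℝ) < d := by
      have := (Finset.mem_Icc.1 hd).1
      exact_mod_cast this
    have h3 : ((H / d : ℕ) : ℝ) ≤ (H : ℝ) / d := Nat.cast_div_le
    calc ((H / d : ℕ) : ℝ) * ((d : ℝ))⁻¹ ≤ (H : ℝ) / d * ((d : ℝ))⁻¹ := by
          apply mul_le_mul_of_nonneg_right h3 (by positivity)
      _ = H * ((d : ℝ) ^ 2)⁻¹ := by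
          field_simp
  refine (Finset.sum_le_sum h2).trans ?_
  rw [← Finset.mul_sum]
  have h4 : ∑ d ∈ Finset.Icc 1 H, ((d : ℝ) ^ 2)⁻¹ ≤ 2 := by
    have h5 := sum_Ioo_inv_sq_le (α := ℝ) 0 (H + 1)
    have h6 : Finset.Ioo 0 (H + 1) = Finset.Icc 1 H := by
      ext x
      simp only [Finset.mem_Ioo, Finset.mem_Icc]
      omega
    rw [h6] at h5
    simpa using h5
  calc (H : ℝ) * ∑ d ∈ Finset.Icc 1 H, ((d : ℝ) ^ 2)⁻¹ ≤ H * 2 :=
        mul_le_mul_of_nonneg_left h4 (Nat.cast_nonneg _)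
    _ = 2 * H := by ring

/-- `∑_{h ≤ H} h / φ(h) ≤ 4 H`. -/
theorem sum_div_totient_le (H : ℕ) :
    ∑ h ∈ Finset.Icc 1 H, (h : ℝ) / (Nat.totient h : ℝ) ≤ 4 * H := by
  calc ∑ h ∈ Finset.Icc 1 H, (h : ℝ) / (Nat.totient h : ℝ)
      ≤ ∑ h ∈ Finset.Icc 1 H, 2 * ∑ d ∈ h.divisors, ((d : ℝ))⁻¹ := by
        refine Finset.sum_le_sum fun h hh => ?_
        exact div_totient_le h (by have := (Finset.mem_Icc.1 hh).1; omega)
    _ = 2 * ∑ h ∈ Finset.Icc 1 H, ∑ d ∈ h.divisors, ((d : ℝ))⁻¹ := by rw [← Finset.mul_sum]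
    _ ≤ 2 * (2 * H) := by
        have := sum_sum_divisors_inv_le H
        linarith
    _ = 4 * H := by ring

end Pool.Agent.Lib.MP_92a7e5_nt
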