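import Pool.Agent.Lib.MP_92a7e5_nt.Pairs
import Pool.Agent.Lib.MP_92a7e5_nt.Totient
import Pool.Agent.Lib.MP_92a7e5_nt.GapDef

set_option autoImplicit false

/-!
Short gaps between consecutive primes and the sum of reciprocal gaps over a dyadic block.
-/

open Finset

namespace Pool.Agent.Lib.MP_92a7e5_nt

/-- the number of gaps of size at most `H` in a dyadic block -/
theorem short_gaps (hpn : ∃ C : ℝ, 0 < C ∧ ∃ N0 : ℕ, ∀ N : ℕ, N0 ≤ N →
      (Nat.nth Nat.Prime N : ℝ) ≤ C * N * Real.log N) :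
    ∃ C : ℝ, 0 < C ∧ ∃ N0 : ℕ, ∀ N : ℕ, N0 ≤ N → ∀ H : ℕ,
    (((Finset.Ico N (2 * N)).filter (fun n => gap n ≤ H)).card : ℝ) ≤
      C * H * (N / Real.log N) := by
  obtain ⟨C1, hC1, X0, hX0⟩ := pairs_count
  obtain ⟨C2, hC2, N2, hN2⟩ := hpn
  refine ⟨C1 * 4 * (4 * C2), by positivity, X0 + N2 + 3, fun N hN H => ?_⟩
  obtain ⟨X, hX⟩ : ∃ X, X = Nat.nth Nat.Prime (2 * N) := ⟨_, rfl⟩
  have hXge : N ≤ X := by have := nth_ge (2 * N); omega
  have hsub : (Finset.Ico N (2 * N)).filter (fun n => gap n ≤ H) ⊆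
      ((Finset.Icc 1 H).filter (fun h => 2 ∣ h)).biUnion (fun h =>
        (Finset.Ico N (2 * N)).filter (fun n => gap n = h)) := by
    intro n hn
    rw [Finset.mem_filter, Finset.mem_Ico] at hn
    rw [Finset.mem_biUnion]
    refine ⟨gap n, ?_, ?_⟩
    · rw [Finset.mem_filter, Finset.mem_Icc]
      exact ⟨⟨gap_pos n, hn.2⟩, two_dvd_gap n (by omega)⟩
    · rw [Finset.mem_filter, Finset.mem_Ico]
      exact ⟨hn.1, rfl⟩
  have hone : ∀ h ∈ (Finset.Icc 1 H).filter (fun h => 2 ∣ h),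
      (((Finset.Ico N (2 * N)).filter (fun n => gap n = h)).card : ℝ) ≤
        C1 * ((h : ℝ) / (Nat.totient h : ℝ)) * (X / Real.log X ^ 2) := by
    intro h hh
    rw [Finset.mem_filter, Finset.mem_Icc] at hh
    refine le_trans ?_ (hX0 X (by omega) h (by omega) hh.2)
    have h1 : ((Finset.Ico N (2 * N)).filter (fun n => gap n = h)).card ≤
        ((Finset.Icc 1 X).filter (fun x => x.Prime ∧ (x + h).Prime)).card := by
      apply Finset.card_le_card_of_injOn (fun n => Nat.nth Nat.Prime n)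
      · intro n hn
        rw [Finset.mem_coe, Finset.mem_filter, Finset.mem_Ico] at hn
        rw [Finset.mem_coe, Finset.mem_filter, Finset.mem_Icc]
        refine ⟨⟨?_, ?_⟩, Nat.prime_nth_prime n, ?_⟩
        · show 1 ≤ Nat.nth Nat.Prime n
          have := nth_ge n
          omega
        · rw [hX]
          exact (Nat.nth_strictMono Nat.infinite_setOfPred_prime).monotone (by omega)
        · show (Nat.nth Nat.Prime n + h).Prime
          rw [← hn.2, nth_add_gap]
          exact Nat.prime_nth_prime (n + 1)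
      · intro a _ b _ hab
        exact (Nat.nth_strictMono Nat.infinite_setOfPred_prime).injective hab
    exact_mod_cast h1
  have hN3 : (3 : ℝ) ≤ N := by exact_mod_cast (show 3 ≤ N by omega)
  have hN0 : (0 : ℝ) < N := by linarith
  have hl : 1 ≤ Real.log N := by
    rw [Real.le_log_iff_exp_le hN0]
    linarith [Real.exp_one_lt_d9]
  have hXN : (N : ℝ) ≤ X := by exact_mod_cast hXge
  have hlX : Real.log N ≤ Real.log X := Real.log_le_log hN0 hXN
  have hXup : (X : ℝ) ≤ 4 * C2 * N * Real.log N := by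
    have h1 := hN2 (2 * N) (by omega)
    rw [← hX] at h1
    push_cast at h1
    have h2 : Real.log (2 * (N : ℝ)) ≤ 2 * Real.log N := by
      rw [Real.log_mul (by norm_num) hN0.ne']
      have : Real.log 2 ≤ Real.log N := Real.log_le_log (by norm_num) (by linarith)
      linarith
    calc (X : ℝ) ≤ C2 * (2 * N) * Real.log (2 * N) := h1
      _ ≤ C2 * (2 * N) * (2 * Real.log N) := mul_le_mul_of_nonneg_left h2 (by positivity)
      _ = _ := by ring
  have hXX : X / Real.log X ^ 2 ≤ 4 * C2 * (N / Real.log N) := by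
    calc X / Real.log X ^ 2 ≤ (4 * C2 * N * Real.log N) / Real.log N ^ 2 := by
          apply div_le_div₀ (by positivity) hXup (by positivity)
          exact pow_le_pow_left₀ (by linarith) hlX 2
      _ = 4 * C2 * (N / Real.log N) := by field_simp
  have hsum : ∑ h ∈ (Finset.Icc 1 H).filter (fun h => 2 ∣ h), ((h : ℝ) / (Nat.totient h : ℝ)) ≤
      4 * H := by
    refine le_trans ?_ (sum_div_totient_le H)
    apply Finset.sum_le_sum_of_subset_of_nonneg (Finset.filter_subset _ _)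
    intro h _ _
    positivity
  calc (((Finset.Ico N (2 * N)).filter (fun n => gap n ≤ H)).card : ℝ)
      ≤ (((((Finset.Icc 1 H).filter (fun h => 2 ∣ h)).biUnion (fun h =>
        (Finset.Ico N (2 * N)).filter (fun n => gap n = h))).card : ℕ) : ℝ) := by
        exact_mod_cast Finset.card_le_card hsub
    _ ≤ ((∑ h ∈ (Finset.Icc 1 H).filter (fun h => 2 ∣ h),
        ((Finset.Ico N (2 * N)).filter (fun n => gap n = h)).card : ℕ) : ℝ) := by
        exact_mod_cast Finset.card_biUnion_le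
    _ = ∑ h ∈ (Finset.Icc 1 H).filter (fun h => 2 ∣ h),
        (((Finset.Ico N (2 * N)).filter (fun n => gap n = h)).card : ℝ) := by push_cast; rfl
    _ ≤ ∑ h ∈ (Finset.Icc 1 H).filter (fun h => 2 ∣ h),
        C1 * ((h : ℝ) / (Nat.totient h : ℝ)) * (X / Real.log X ^ 2) := Finset.sum_le_sum hone
    _ = C1 * (X / Real.log X ^ 2) * ∑ h ∈ (Finset.Icc 1 H).filter (fun h => 2 ∣ h),
        ((h : ℝ) / (Nat.totient h : ℝ)) := by
        rw [Finset.mul_sum]
        apply Finset.sum_congr rfl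
        intro h _
        ring
    _ ≤ C1 * (4 * C2 * (N / Real.log N)) * (4 * H) := by
        apply mul_le_mul _ hsum (Finset.sum_nonneg fun h _ => by positivity) (by positivity)
        exact mul_le_mul_of_nonneg_left hXX hC1.le
    _ = _ := by ring

/-- pointwise dyadic decomposition -/
lemma inv_le_dyadic (g J : ℕ) (hg : 1 ≤ g) :
    1 / (g : ℝ) ≤ 1 / 2 ^ J + ∑ i ∈ range J, (1 / 2 ^ i) * (if g ≤ 2 ^ (i + 1) then 1 else 0) := by
  have hg0 : (0 : ℝ) < g := by exact_mod_cast hg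
  have hnn : ∀ i ∈ range J, (0 : ℝ) ≤ (1 / 2 ^ i) * (if g ≤ 2 ^ (i + 1) then (1 : ℝ) else 0) := by
    intro i _
    split_ifs <;> positivity
  by_cases h : 2 ^ J ≤ g
  · have h1 : 1 / (g : ℝ) ≤ 1 / 2 ^ J := by
      apply one_div_le_one_div_of_le (by positivity)
      exact_mod_cast h
    linarith [Finset.sum_nonneg hnn]
  · have hlog : Nat.log 2 g < J := Nat.log_lt_of_lt_pow (by omega) (by omega)
    have h2 : 2 ^ Nat.log 2 g ≤ g := Nat.pow_log_le_self 2 (by omega)
    have h3 : g < 2 ^ (Nat.log 2 g + 1) := Nat.lt_pow_succ_log_self (by norm_num) g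
    have h4 := Finset.single_le_sum hnn (Finset.mem_range.2 hlog)
    rw [if_pos h3.le, mul_one] at h4
    have h5 : 1 / (g : ℝ) ≤ 1 / 2 ^ Nat.log 2 g := by
      apply one_div_le_one_div_of_le (by positivity)
      exact_mod_cast h2
    have h6 : (0 : ℝ) ≤ 1 / 2 ^ J := by positivity
    linarith

/-- the sum of reciprocal gaps over a dyadic block -/
theorem block_sum (hpn : ∃ C : ℝ, 0 < C ∧ ∃ N0 : ℕ, ∀ N : ℕ, N0 ≤ N →
      (Nat.nth Nat.Prime N : ℝ) ≤ C * N * Real.log N) :
    ∃ C : ℝ, 0 < C ∧ ∃ k0 : ℕ, ∀ k : ℕ, k0 ≤ k →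
    ∑ n ∈ Finset.Ico ((2 : ℕ) ^ k) ((2 : ℕ) ^ (k + 1)), 1 / (((n : ℝ) + 1) * (gap n : ℝ)) ≤
      C * (Real.log k / k) := by
  obtain ⟨C1, hC1, N0, hN0⟩ := short_gaps hpn
  refine ⟨1 + 16 * C1, by positivity, N0 + 4, fun k hk => ?_⟩
  obtain ⟨N, hN⟩ : ∃ N : ℕ, N = 2 ^ k := ⟨_, rfl⟩
  have hkN : k < N := by rw [hN]; exact Nat.lt_two_pow_self
  have hNr : (N : ℝ) = 2 ^ k := by rw [hN]; push_cast; rfl
  have hNpos : (0 : ℝ) < N := by rw [hNr]; positivity
  rw [show 2 ^ (k + 1) = 2 * N by rw [hN]; ring, ← hN]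
  obtain ⟨J, hJ⟩ : ∃ J : ℕ, J = Nat.log 2 k + 1 := ⟨_, rfl⟩
  have hJk : k < 2 ^ J := by rw [hJ]; exact Nat.lt_pow_succ_log_self (by norm_num) k
  have hk4 : (4 : ℝ) ≤ k := by exact_mod_cast (show 4 ≤ k by omega)
  have hk0 : (0 : ℝ) < k := by linarith
  have hlog2 : 0 < Real.log 2 := Real.log_pos (by norm_num)
  have hlog2' : Real.log 2 < 0.6931471808 := Real.log_two_lt_d9
  have hlog2'' : 0.6931471803 < Real.log 2 := Real.log_two_gt_d9
  have hlk : 1 ≤ Real.log k := by
    rw [Real.le_log_iff_exp_le hk0]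
    linarith [Real.exp_one_lt_d9]
  have hJle : (J : ℝ) ≤ 4 * Real.log k := by
    have h1 : (Nat.log 2 k : ℝ) * Real.log 2 ≤ Real.log k := by
      have h2 : ((2 : ℝ) ^ Nat.log 2 k) ≤ k := by
        exact_mod_cast Nat.pow_log_le_self 2 (show k ≠ 0 by omega)
      have h3 := Real.log_le_log (by positivity) h2
      rwa [Real.log_pow] at h3
    rw [hJ]
    push_cast
    nlinarith
  have hlN : Real.log N = k * Real.log 2 := by rw [hNr, Real.log_pow]
  have hterm : ∀ n ∈ Finset.Ico N (2 * N), 1 / (((n : ℝ) + 1) * (gap n : ℝ)) ≤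
      (1 / N) * (1 / 2 ^ J + ∑ i ∈ range J, (1 / 2 ^ i) *
        (if gap n ≤ 2 ^ (i + 1) then 1 else 0)) := by
    intro n hn
    rw [Finset.mem_Ico] at hn
    have h1 : (N : ℝ) ≤ (n : ℝ) + 1 := by
      have : N ≤ n + 1 := by omega
      exact_mod_cast this
    have h2 : (1 : ℝ) ≤ gap n := by exact_mod_cast gap_pos n
    rw [← one_div_mul_one_div]
    apply mul_le_mul _ (inv_le_dyadic (gap n) J (gap_pos n)) (by positivity) (by positivity)
    exact one_div_le_one_div_of_le hNpos h1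
  refine (Finset.sum_le_sum hterm).trans ?_
  rw [← Finset.mul_sum, Finset.sum_add_distrib, Finset.sum_const, Nat.card_Ico,
    show 2 * N - N = N by omega, nsmul_eq_mul, Finset.sum_comm]
  have hinner : ∀ i ∈ range J, ∑ n ∈ Finset.Ico N (2 * N), (1 / 2 ^ i : ℝ) *
      (if gap n ≤ 2 ^ (i + 1) then 1 else 0) ≤ 2 * C1 * (N / Real.log N) := by
    intro i _
    rw [← Finset.mul_sum, Finset.sum_ite, Finset.sum_const_zero, add_zero, Finset.sum_const,
      nsmul_eq_mul, mul_one]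
    have h1 := hN0 N (by omega) (2 ^ (i + 1))
    push_cast at h1
    calc (1 / 2 ^ i : ℝ) * (((Finset.Ico N (2 * N)).filter (fun n => gap n ≤ 2 ^ (i + 1))).card : ℝ)
        ≤ (1 / 2 ^ i : ℝ) * (C1 * 2 ^ (i + 1) * (N / Real.log N)) :=
          mul_le_mul_of_nonneg_left h1 (by positivity)
      _ = 2 * C1 * (N / Real.log N) := by
          rw [pow_succ]
          field_simp
  have hsumJ := Finset.sum_le_sum hinner
  rw [Finset.sum_const, Finset.card_range, nsmul_eq_mul] at hsumJ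
  have hpJ : N * (1 / 2 ^ J : ℝ) ≤ N * (1 / k) := by
    apply mul_le_mul_of_nonneg_left _ hNpos.le
    apply one_div_le_one_div_of_le hk0
    exact_mod_cast hJk.le
  calc (1 / (N : ℝ)) * (N * (1 / 2 ^ J : ℝ) + ∑ i ∈ range J, ∑ n ∈ Finset.Ico N (2 * N),
        (1 / 2 ^ i : ℝ) * (if gap n ≤ 2 ^ (i + 1) then 1 else 0))
      ≤ (1 / (N : ℝ)) * (N * (1 / k) + J * (2 * C1 * (N / Real.log N))) :=
        mul_le_mul_of_nonneg_left (add_le_add hpJ hsumJ) (by positivity)
    _ = 1 / k + J * (2 * C1 / Real.log N) := by field_simp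
    _ ≤ Real.log k / k + (4 * Real.log k) * (4 * C1 / k) := by
        apply add_le_add
        · exact div_le_div_of_nonneg_right hlk hk0.le
        · apply mul_le_mul hJle _ (by rw [hlN]; positivity) (by positivity)
          rw [hlN, div_le_div_iff₀ (by positivity) hk0]
          have : C1 * k * 2 ≤ C1 * k * (4 * Real.log 2) :=
            mul_le_mul_of_nonneg_left (by linarith) (by positivity)
          nlinarith
    _ = _ := by ring

end Pool.Agent.Lib.MP_92a7e5_nt
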