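import Pool.Agent.Lib.MP_92a7e5_nt.Upper
import Pool.Agent.Lib.MP_0da313_nt.Final
import Pool.Agent.Lib.MP_0da313_nt.MT.Mertens

set_option autoImplicit false

/-!
Upper bound for the number of prime pairs `(p, p + h)`, uniformly in `h`.
-/

open Finset

namespace Pool.Agent.Lib.MP_92a7e5_nt

open Pool.Agent.Lib.MP_0da313_nt (small sieve_upper choose_level log_two_le)
open Pool.Agent.MP89da58 (kapD)
open Pool.Agent.MT (kapD_mul_log_le kapD_pos)

/-- the sieve condition -/
def Q (h p x : ℕ) : Prop := p ∣ x ∨ p ∣ x + h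

instance (h p : ℕ) : DecidablePred (Q h p) := fun x => by unfold Q; infer_instance

lemma Q_per (h p x : ℕ) : Q h p (x % p) ↔ Q h p x := by
  unfold Q
  have h1 : p ∣ x % p ↔ p ∣ x := by
    rw [Nat.dvd_iff_mod_eq_zero, Nat.mod_mod, ← Nat.dvd_iff_mod_eq_zero]
  have h2 : p ∣ x % p + h ↔ p ∣ x + h := by
    rw [Nat.dvd_iff_mod_eq_zero, Nat.dvd_iff_mod_eq_zero, Nat.mod_add_mod]
  rw [h1, h2]

lemma filter_sub (h p : ℕ) (hp : p.Prime) :
    (range p).filter (Q h p) ⊆ {0, p - h % p} := by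
  intro r hr
  rw [Finset.mem_filter, Finset.mem_range] at hr
  obtain ⟨hrp, hr⟩ := hr
  rw [Finset.mem_insert, Finset.mem_singleton]
  rcases hr with h1 | h1
  · exact Or.inl (Nat.eq_zero_of_dvd_of_lt h1 hrp)
  · have h2 : h % p < p := Nat.mod_lt _ hp.pos
    have h3 : p ∣ r + h % p := by
      rw [Nat.dvd_iff_mod_eq_zero] at h1 ⊢
      rwa [Nat.add_mod_mod]
    obtain ⟨k, hk⟩ := h3
    have hk2 : k < 2 := by
      by_contra hcon
      have : p * 2 ≤ p * k := Nat.mul_le_mul_left _ (by omega)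
      omega
    interval_cases k
    · left; omega
    · right; omega

lemma card_le (h p : ℕ) (hp : p.Prime) : ((range p).filter (Q h p)).card ≤ 2 :=
  (Finset.card_le_card (filter_sub h p hp)).trans Finset.card_le_two

lemma card_dvd (h p : ℕ) (hp : p.Prime) (hd : p ∣ h) : ((range p).filter (Q h p)).card = 1 := by
  have h1 : (range p).filter (Q h p) = {0} := by
    ext r
    rw [Finset.mem_filter, Finset.mem_range, Finset.mem_singleton]
    constructor
    · rintro ⟨hrp, h2 | h2⟩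
      · exact Nat.eq_zero_of_dvd_of_lt h2 hrp
      · exact Nat.eq_zero_of_dvd_of_lt ((Nat.dvd_add_left hd).1 h2) hrp
    · rintro rfl
      exact ⟨hp.pos, Or.inl (dvd_zero p)⟩
  rw [h1, Finset.card_singleton]

lemma card_not_dvd (h p : ℕ) (hp : p.Prime) (hd : ¬ p ∣ h) :
    2 ≤ ((range p).filter (Q h p)).card := by
  have h0 : h % p ≠ 0 := fun h1 => hd (Nat.dvd_of_mod_eq_zero h1)
  have h2 : h % p < p := Nat.mod_lt _ hp.pos
  have h1 : ({0, p - h % p} : Finset ℕ) ⊆ (range p).filter (Q h p) := by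
    intro r hr
    rw [Finset.mem_insert, Finset.mem_singleton] at hr
    rw [Finset.mem_filter, Finset.mem_range]
    rcases hr with rfl | rfl
    · exact ⟨hp.pos, Or.inl (dvd_zero p)⟩
    · refine ⟨by omega, Or.inr ?_⟩
      rw [Nat.dvd_iff_mod_eq_zero, ← Nat.add_mod_mod, Nat.sub_add_cancel h2.le, Nat.mod_self]
  have h3 : ({0, p - h % p} : Finset ℕ).card = 2 := Finset.card_pair (by omega)
  rw [← h3]
  exact Finset.card_le_card h1

lemma card_lt (h p : ℕ) (hp : p.Prime) (he : 2 ∣ h) : ((range p).filter (Q h p)).card < p := by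
  rcases hp.eq_two_or_odd' with rfl | h1
  · rw [card_dvd h 2 hp he]; norm_num
  · have := card_le h p hp
    have h2 := hp.two_le
    have h3 : p ≠ 2 := by rintro rfl; exact absurd h1 (by decide)
    omega

lemma totient_ratio (h : ℕ) (hh : 0 < h) :
    (h : ℝ) / (Nat.totient h : ℝ) = ∏ p ∈ h.primeFactors, (1 - 1 / (p : ℝ))⁻¹ := by
  have h1 : (Nat.totient h : ℚ) = h * ∏ p ∈ h.primeFactors, (1 - (p : ℚ)⁻¹) :=
    Nat.totient_eq_mul_prod_factors h
  have h2 : (Nat.totient h : ℝ) = h * ∏ p ∈ h.primeFactors, (1 - (p : ℝ)⁻¹) := by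
    have := congrArg (fun x : ℚ => (x : ℝ)) h1
    push_cast at this
    exact this
  have h3 : (0 : ℝ) < h := by exact_mod_cast hh
  rw [h2, Finset.prod_inv_distrib, ← div_div, div_self h3.ne', one_div]
  simp only [one_div]

lemma ratio_ge_one (h : ℕ) (hh : 0 < h) : (1 : ℝ) ≤ (h : ℝ) / (Nat.totient h : ℝ) := by
  have h1 : (0 : ℝ) < Nat.totient h := by exact_mod_cast Nat.totient_pos.2 hh
  rw [le_div_iff₀ h1, one_mul]
  exact_mod_cast Nat.totient_le h

lemma prod_le (h z : ℕ) (hh : 0 < h) :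
    ∏ p ∈ (range (z + 1)).filter Nat.Prime, (1 - (((range p).filter (Q h p)).card : ℝ) / p) ≤
      kapD z ^ 2 * ((h : ℝ) / (Nat.totient h : ℝ)) := by
  have hset : (range (z + 1)).filter Nat.Prime = (Finset.Icc 1 z).filter Nat.Prime := by
    ext p
    simp only [Finset.mem_filter, Finset.mem_range, Finset.mem_Icc]
    constructor
    · rintro ⟨h1, h2⟩
      exact ⟨⟨h2.one_lt.le, by omega⟩, h2⟩
    · rintro ⟨h1, h2⟩
      exact ⟨by omega, h2⟩
  rw [hset]
  set P := (Finset.Icc 1 z).filter Nat.Prime with hP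
  have hpos : ∀ p : ℕ, p.Prime → (0 : ℝ) < 1 - 1 / (p : ℝ) ∧ 1 - 1 / (p : ℝ) ≤ 1 := by
    intro p hp
    have h1 : (2 : ℝ) ≤ p := by exact_mod_cast hp.two_le
    have h2 : 1 / (p : ℝ) ≤ 1 / 2 := one_div_le_one_div_of_le (by norm_num) h1
    have h3 : 0 ≤ 1 / (p : ℝ) := by positivity
    constructor <;> linarith
  have hPp : ∀ p ∈ P, p.Prime := fun p hp => (Finset.mem_filter.1 hp).2
  have hstep : ∏ p ∈ P, (1 - (((range p).filter (Q h p)).card : ℝ) / p) ≤
      ∏ p ∈ P, ((1 - 1 / (p : ℝ)) ^ 2 * (if p ∣ h then (1 - 1 / (p : ℝ))⁻¹ else 1)) := by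
    apply Finset.prod_le_prod
    · intro p hp
      have hpp := hPp p hp
      have h1 : (((range p).filter (Q h p)).card : ℝ) ≤ p := by
        have := Finset.card_filter_le (range p) (Q h p)
        rw [Finset.card_range] at this
        exact_mod_cast this
      have h2 : (0 : ℝ) < p := by exact_mod_cast hpp.pos
      have h3 : (((range p).filter (Q h p)).card : ℝ) / p ≤ 1 := (div_le_one h2).2 h1
      linarith
    · intro p hp
      have hpp := hPp p hp
      have h2 : (0 : ℝ) < p := by exact_mod_cast hpp.pos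
      obtain ⟨h3, h4⟩ := hpos p hpp
      split_ifs with hd
      · rw [card_dvd h p hpp hd, sq, mul_assoc, mul_inv_cancel₀ h3.ne', mul_one]
        simp
      · have h5 : (2 : ℝ) ≤ (((range p).filter (Q h p)).card : ℝ) := by
          exact_mod_cast card_not_dvd h p hpp hd
        have h6 : 2 / (p : ℝ) ≤ (((range p).filter (Q h p)).card : ℝ) / p :=
          div_le_div_of_nonneg_right h5 h2.le
        have h7 : 2 / (p : ℝ) = 2 * (1 / (p : ℝ)) := by ring
        have h8 : 0 ≤ (1 / (p : ℝ)) ^ 2 := by positivity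
        rw [mul_one]
        nlinarith
  refine hstep.trans ?_
  rw [Finset.prod_mul_distrib, Finset.prod_pow]
  have h9 : ∏ p ∈ P, (1 - 1 / (p : ℝ)) = kapD z := rfl
  rw [h9]
  apply mul_le_mul_of_nonneg_left _ (by positivity)
  rw [Finset.prod_ite, Finset.prod_const_one, mul_one, totient_ratio h hh]
  have hsub : P.filter (fun p => p ∣ h) ⊆ h.primeFactors := by
    intro p hp
    rw [Finset.mem_filter] at hp
    exact Nat.mem_primeFactors.2 ⟨hPp p hp.1, hp.2, hh.ne'⟩
  rw [← Finset.prod_sdiff hsub]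
  have hone : ∀ p : ℕ, p.Prime → (1 : ℝ) ≤ (1 - 1 / (p : ℝ))⁻¹ := by
    intro p hp
    obtain ⟨h3, h4⟩ := hpos p hp
    exact (one_le_inv₀ h3).2 h4
  have hge : (1 : ℝ) ≤ ∏ p ∈ h.primeFactors \ P.filter (fun p => p ∣ h), (1 - 1 / (p : ℝ))⁻¹ := by
    have h10 : ∏ p ∈ h.primeFactors \ P.filter (fun p => p ∣ h), (1 : ℝ) ≤
        ∏ p ∈ h.primeFactors \ P.filter (fun p => p ∣ h), (1 - 1 / (p : ℝ))⁻¹ := by
      apply Finset.prod_le_prod
      · intro p _
        norm_num
      · intro p hp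
        exact hone p (Nat.prime_of_mem_primeFactors (Finset.mem_sdiff.1 hp).1)
    rwa [Finset.prod_const_one] at h10
  apply le_mul_of_one_le_left _ hge
  apply Finset.prod_nonneg
  intro p hp
  linarith [hone p (hPp p (Finset.mem_filter.1 hp).1)]

lemma ev_small (E : ℝ) (hE : 0 ≤ E) : ∃ X1 : ℕ, ∀ X : ℕ, X1 ≤ X →
    (E * (2 * Real.log X) + 1) * Real.sqrt X ≤ X / Real.log X ^ 2 := by
  have h1 : ∀ᶠ t : ℝ in Filter.atTop, (2 * E + 1) * Real.log t ^ 3 ≤ t ^ (1 / 2 : ℝ) := by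
    have h2 := (isLittleO_log_rpow_rpow_atTop 3 (show (0 : ℝ) < 1 / 2 by norm_num)).bound
      (show (0 : ℝ) < 1 / (2 * E + 1) by positivity)
    filter_upwards [h2, Filter.eventually_ge_atTop (Real.exp 1)] with t ht ht2
    have h3 : 0 < t := lt_of_lt_of_le (Real.exp_pos 1) ht2
    have h4 : 0 ≤ Real.log t := by
      have := Real.log_le_log (Real.exp_pos 1) ht2
      rw [Real.log_exp] at this
      linarith
    rw [Real.norm_of_nonneg (by positivity), Real.norm_of_nonneg (by positivity)] at ht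
    rw [one_div_mul_eq_div, le_div_iff₀ (by positivity)] at ht
    have h5 : Real.log t ^ (3 : ℝ) = Real.log t ^ 3 := by
      exact_mod_cast Real.rpow_natCast (Real.log t) 3
    rw [h5] at ht
    linarith
  obtain ⟨T, hT⟩ := Filter.eventually_atTop.1 h1
  refine ⟨⌈T⌉₊ + 3, fun X hX => ?_⟩
  have hX3 : (3 : ℝ) ≤ X := by exact_mod_cast (show 3 ≤ X by omega)
  have hXT : T ≤ X := (Nat.le_ceil T).trans (by exact_mod_cast (show ⌈T⌉₊ ≤ X by omega))
  have h2 := hT X hXT
  have hX0 : (0 : ℝ) < X := by linarith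
  have hl : 1 ≤ Real.log X := by
    rw [Real.le_log_iff_exp_le hX0]
    linarith [Real.exp_one_lt_d9]
  rw [le_div_iff₀ (by positivity)]
  have h3 : Real.sqrt X = (X : ℝ) ^ (1 / 2 : ℝ) := Real.sqrt_eq_rpow _
  rw [← h3] at h2
  have h4 : Real.sqrt X * Real.sqrt X = X := Real.mul_self_sqrt hX0.le
  have h5 : 0 ≤ Real.sqrt X := Real.sqrt_nonneg _
  calc (E * (2 * Real.log X) + 1) * Real.sqrt X * Real.log X ^ 2 =
        Real.sqrt X * ((E * (2 * Real.log X) + 1) * Real.log X ^ 2) := by ring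
    _ ≤ Real.sqrt X * ((2 * E + 1) * Real.log X ^ 3) := by
        apply mul_le_mul_of_nonneg_left _ h5
        have h6 : E * (2 * Real.log X) + 1 ≤ (2 * E + 1) * Real.log X := by nlinarith
        calc (E * (2 * Real.log X) + 1) * Real.log X ^ 2 ≤
              ((2 * E + 1) * Real.log X) * Real.log X ^ 2 :=
              mul_le_mul_of_nonneg_right h6 (by positivity)
          _ = _ := by ring
    _ ≤ Real.sqrt X * Real.sqrt X := mul_le_mul_of_nonneg_left h2 h5
    _ = X := h4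

theorem pairs_count : ∃ C : ℝ, 0 < C ∧ ∃ X0 : ℕ, ∀ X : ℕ, X0 ≤ X → ∀ h : ℕ, 0 < h → 2 ∣ h →
    (((Finset.Icc 1 X).filter (fun x => x.Prime ∧ (x + h).Prime)).card : ℝ) ≤
      C * ((h : ℝ) / (Nat.totient h : ℝ)) * (X / Real.log X ^ 2) := by
  classical
  obtain ⟨X1, hX1⟩ := choose_level 2 (by norm_num)
  obtain ⟨E, hE⟩ : ∃ E : ℝ, E = (1 + (2 : ℕ) : ℝ) ^ (small 2).card := ⟨_, rfl⟩
  have hE0 : 0 ≤ E := by rw [hE]; positivity
  obtain ⟨X2, hX2⟩ := ev_small E hE0
  refine ⟨2 * 256 ^ 2 + 1, by norm_num, X1 + X2 + 3, fun X hX h hh he => ?_⟩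
  obtain ⟨n, ha, hb, hc⟩ := hX1 X (by omega)
  have hX3 : (3 : ℝ) ≤ X := by exact_mod_cast (show 3 ≤ X by omega)
  have hX0 : (0 : ℝ) < X := by linarith
  have hl : 1 ≤ Real.log X := by
    rw [Real.le_log_iff_exp_le hX0]
    linarith [Real.exp_one_lt_d9]
  obtain ⟨z, hz⟩ : ∃ z : ℕ, z = 2 ^ (2 ^ (2 + n)) := ⟨_, rfl⟩
  have hz1 : 1 ≤ z := by rw [hz]; exact Nat.one_le_two_pow
  have hsieve := sieve_upper 2 n (by norm_num) (Q h) (Q_per h)
    (fun p hp => card_le h p hp) (fun p hp => card_lt h p hp he) X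
  rw [← hE, ← hz] at hsieve
  have hsubset : (Finset.Icc 1 X).filter (fun x => x.Prime ∧ (x + h).Prime) ⊆
      (Finset.Ico 1 (1 + X)).filter (fun x => ∀ p : ℕ, p.Prime → p ≤ z → ¬ Q h p x) ∪
        Finset.Icc 1 z := by
    intro x hx
    rw [Finset.mem_filter, Finset.mem_Icc] at hx
    obtain ⟨⟨hx1, hx2⟩, hx3, hx4⟩ := hx
    rw [Finset.mem_union]
    by_cases hxz : x ≤ z
    · exact Or.inr (Finset.mem_Icc.2 ⟨hx1, hxz⟩)
    · left
      rw [Finset.mem_filter, Finset.mem_Ico]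
      refine ⟨by omega, fun p hp hpz hQ => ?_⟩
      rcases hQ with hQ | hQ
      · have := (Nat.prime_dvd_prime_iff_eq hp hx3).1 hQ
        omega
      · have := (Nat.prime_dvd_prime_iff_eq hp hx4).1 hQ
        omega
  have hcard := (Finset.card_le_card hsubset).trans (Finset.card_union_le _ _)
  have hcardr : (((Finset.Icc 1 X).filter (fun x => x.Prime ∧ (x + h).Prime)).card : ℝ) ≤
      (((Finset.Ico 1 (1 + X)).filter (fun x => ∀ p : ℕ, p.Prime → p ≤ z → ¬ Q h p x)).card : ℝ) +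
        z := by
    have h1 : (Finset.Icc 1 z).card = z := by rw [Nat.card_Icc]; omega
    rw [h1] at hcard
    exact_mod_cast hcard
  have hprod := prod_le h z hh
  have hratio := ratio_ge_one h hh
  set R := (h : ℝ) / (Nat.totient h : ℝ) with hR
  have hlz : Real.log X ≤ 256 * Real.log z := by
    have h1 : (X : ℝ) ≤ (z : ℝ) ^ 256 := by
      have h2 : X ≤ z ^ 256 := by
        rw [hz]
        have h3 : (2 ^ 2 ^ (2 + n)) ^ (128 * 2) = (2 ^ 2 ^ (2 + n)) ^ 256 := by norm_num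
        omega
      exact_mod_cast h2
    have h2 := Real.log_le_log hX0 h1
    rwa [Real.log_pow] at h2
  have hkap : kapD z ≤ 256 / Real.log X := by
    have h1 := kapD_mul_log_le z hz1
    rw [le_div_iff₀ (by linarith)]
    calc kapD z * Real.log X ≤ kapD z * (256 * Real.log z) :=
          mul_le_mul_of_nonneg_left hlz (kapD_pos z).le
      _ = 256 * (kapD z * Real.log z) := by ring
      _ ≤ 256 * 1 := mul_le_mul_of_nonneg_left h1 (by norm_num)
      _ = 256 := by norm_num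
  have hkap2 : kapD z ^ 2 ≤ 256 ^ 2 / Real.log X ^ 2 := by
    rw [← div_pow]
    exact pow_le_pow_left₀ (kapD_pos z).le hkap 2
  have ha2 : ((2 : ℝ) ^ (2 ^ (2 + n) * (24 * 2 + 8))) ≤ Real.sqrt X := by
    apply Real.le_sqrt_of_sq_le
    exact_mod_cast hb
  have hzs : (z : ℝ) ≤ Real.sqrt X := by
    refine le_trans ?_ ha2
    rw [hz]
    push_cast
    apply pow_le_pow_right₀ (by norm_num)
    omega
  have hn : ((n : ℝ) + 1) ≤ 2 * Real.log X := by
    have h1 := log_two_le X X (by omega) le_rfl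
    refine le_trans ?_ h1
    have h2 : n + 1 ≤ 2 ^ (2 + n) := by
      have h3 : n < 2 ^ n := Nat.lt_two_pow_self
      have h4 : 2 ^ n ≤ 2 ^ (2 + n) := Nat.pow_le_pow_right (by norm_num) (by omega)
      omega
    exact_mod_cast h2.trans ha
  have herr : E * ((n : ℝ) + 1) * (2 : ℝ) ^ (2 ^ (2 + n) * (24 * 2 + 8)) + z ≤
      X / Real.log X ^ 2 := by
    refine le_trans ?_ (hX2 X (by omega))
    have h1 : E * ((n : ℝ) + 1) * (2 : ℝ) ^ (2 ^ (2 + n) * (24 * 2 + 8)) ≤
        E * (2 * Real.log X) * Real.sqrt X := by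
      apply mul_le_mul _ ha2 (by positivity) (by positivity)
      exact mul_le_mul_of_nonneg_left hn hE0
    linarith
  have hmain : (X : ℝ) * (2 * ∏ p ∈ (range (z + 1)).filter Nat.Prime,
      (1 - (((range p).filter (Q h p)).card : ℝ) / p)) ≤
      2 * 256 ^ 2 * R * (X / Real.log X ^ 2) := by
    calc (X : ℝ) * (2 * ∏ p ∈ (range (z + 1)).filter Nat.Prime,
        (1 - (((range p).filter (Q h p)).card : ℝ) / p)) ≤ X * (2 * (kapD z ^ 2 * R)) :=
          mul_le_mul_of_nonneg_left (mul_le_mul_of_nonneg_left hprod (by norm_num)) hX0.le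
      _ ≤ X * (2 * (256 ^ 2 / Real.log X ^ 2 * R)) := by
          apply mul_le_mul_of_nonneg_left _ hX0.le
          apply mul_le_mul_of_nonneg_left _ (by norm_num)
          exact mul_le_mul_of_nonneg_right hkap2 (by linarith)
      _ = _ := by ring
  have hlast : X / Real.log X ^ 2 ≤ R * (X / Real.log X ^ 2) :=
    le_mul_of_one_le_left (by positivity) hratio
  calc (((Finset.Icc 1 X).filter (fun x => x.Prime ∧ (x + h).Prime)).card : ℝ) ≤ _ := hcardr
    _ ≤ 2 * 256 ^ 2 * R * (X / Real.log X ^ 2) + X / Real.log X ^ 2 := by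
        have h1 := hsieve
        push_cast at h1 herr ⊢
        linarith
    _ ≤ 2 * 256 ^ 2 * R * (X / Real.log X ^ 2) + R * (X / Real.log X ^ 2) := by linarith
    _ = _ := by ring

end Pool.Agent.Lib.MP_92a7e5_nt
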