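import Pool.Agent.Lib.MP_0da313_nt.Sieve

set_option autoImplicit false

/-!
The Brun-Hooley upper bound sieve (adapted from the lower bound sieve of `Lib/MP_0da313_nt`).
-/

open Finset

namespace Pool.Agent.Lib.MP_0da313_nt

/-- The Brun-Hooley upper bound sieve. -/
theorem brun_hooley_upper {B0 : Finset ℕ} {B : ℕ → Finset ℕ} {b : ℕ → ℕ} (hb : ∀ i, Even (b i))
    (n : ℕ) (hd : ∀ i < n, Disjoint (PP B0 B i) (B i)) {ι : Type*} (S : Finset ι)
    (ind : ι → ℕ → ℝ) (hind : ∀ x p, ind x p = 0 ∨ ind x p = 1) (X : ℝ) (hX : 0 ≤ X)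
    (ρ w : ℕ → ℝ) (hρ0 : ∀ p ∈ PP B0 B n, 0 ≤ ρ p) (hρ1 : ∀ p ∈ PP B0 B n, ρ p < 1)
    (hw : ∀ p ∈ PP B0 B n, 0 ≤ w p)
    (hA : ∀ T ⊆ PP B0 B n,
      |∑ x ∈ S, ∏ p ∈ T, ind x p - X * ∏ p ∈ T, ρ p| ≤ ∏ p ∈ T, w p)
    (hE : ∑ i ∈ range n, E ρ (B i) (b i + 1) / W ρ (B i) ≤ 1 / 2) :
    ((S.filter (fun x => ∀ p ∈ PP B0 B n, ind x p = 0)).card : ℝ) ≤
      X * (2 * W ρ (PP B0 B n)) +
        (∏ p ∈ B0, (1 + w p)) * (∏ i ∈ range n, (1 + ∑ p ∈ B i, w p) ^ (b i)) := by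
  have h1 := (rep_YY (b := b) n hd hw).sum_estimate S ind X ρ hA
  have h2 : ((S.filter (fun x => ∀ p ∈ PP B0 B n, ind x p = 0)).card : ℝ) ≤
      ∑ x ∈ S, YY B0 B b (ind x) n := by
    rw [Finset.card_filter]
    push_cast
    apply Finset.sum_le_sum
    intro x _
    have h3 := (pointwise hb n hd (ind x)
      (fun p _ => by rcases hind x p with h | h <;> rw [h]; norm_num)
      (fun p _ => by rcases hind x p with h | h <;> rw [h]; norm_num)).1
    refine le_trans ?_ h3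
    split_ifs with h
    · unfold W
      rw [Finset.prod_eq_one fun p hp => by rw [h p hp]; ring]
    · exact W_nonneg fun p _ => by rcases hind x p with h | h <;> rw [h]; norm_num
  have h3 := FF_lower hb n hd ρ hρ0 hρ1
  have h4 := (pointwise hb n hd ρ hρ0 (fun p hp => (hρ1 p hp).le)).2
  have h5 := (pointwise hb n hd ρ hρ0 (fun p hp => (hρ1 p hp).le)).1
  have h6 : 0 ≤ W ρ (PP B0 B n) := W_nonneg fun p hp => (hρ1 p hp).le
  have h7 : YY B0 B b ρ n ≤ 2 * W ρ (PP B0 B n) := by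
    have h8 : YY B0 B b ρ n * (1 / 2) ≤
        YY B0 B b ρ n * (1 - ∑ i ∈ range n, E ρ (B i) (b i + 1) / W ρ (B i)) :=
      mul_le_mul_of_nonneg_left (by linarith) (h6.trans h5)
    linarith
  have h8 := mul_le_mul_of_nonneg_left h7 hX
  have h9 := (abs_le.mp h1).2
  linarith

/-- The upper bound sieve with all parameters chosen. -/
theorem sieve_upper (D n : ℕ) (hD : 1 ≤ D) (Q : ℕ → ℕ → Prop) [∀ p, DecidablePred (Q p)]
    (hQ : ∀ p x, Q p (x % p) ↔ Q p x)
    (hωD : ∀ p, p.Prime → ((range p).filter (Q p)).card ≤ D)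
    (hωp : ∀ p, p.Prime → ((range p).filter (Q p)).card < p) (X : ℕ)
    [DecidablePred fun x => ∀ p : ℕ, p.Prime → p ≤ 2 ^ (2 ^ (D + n)) → ¬ Q p x] :
    (((Ico 1 (1 + X)).filter (fun x => ∀ p : ℕ, p.Prime → p ≤ 2 ^ (2 ^ (D + n)) →
          ¬ Q p x)).card : ℝ)
      ≤ (X : ℝ) * (2 * ∏ p ∈ (range (2 ^ (2 ^ (D + n)) + 1)).filter Nat.Prime,
          (1 - (((range p).filter (Q p)).card : ℝ) / p))
        + (1 + D : ℝ) ^ (small D).card * (n + 1) * 2 ^ (2 ^ (D + n) * (24 * D + 8)) := by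
  set ω : ℕ → ℝ := fun p => (((range p).filter (Q p)).card : ℝ) with hω
  set ρ : ℕ → ℝ := fun p => ω p / p with hρ
  set B : ℕ → Finset ℕ := fun i => blk (D + i) with hB
  set b : ℕ → ℕ := fun i => 8 * D + 2 * (n - 1 - i) with hbdef
  have hDr : (1 : ℝ) ≤ D := by exact_mod_cast hD
  have hb : ∀ i, Even (b i) := fun i => ⟨4 * D + (n - 1 - i), by simp only [hbdef]; ring⟩
  have hω0 : ∀ p, 0 ≤ ω p := fun p => by positivity
  have hωD' : ∀ p, p.Prime → ω p ≤ D := fun p hp => by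
    show (((range p).filter (Q p)).card : ℝ) ≤ D
    exact_mod_cast hωD p hp
  have hωp' : ∀ p, p.Prime → ω p ≤ p - 1 := fun p hp => by
    have h1 := hωp p hp
    have h2 : ((range p).filter (Q p)).card + 1 ≤ p := h1
    have h3 : ((((range p).filter (Q p)).card + 1 : ℕ) : ℝ) ≤ (p : ℝ) := by exact_mod_cast h2
    push_cast at h3
    show (((range p).filter (Q p)).card : ℝ) ≤ _
    linarith
  have hρ0 : ∀ p, 0 ≤ ρ p := fun p => div_nonneg (hω0 p) (by positivity)
  have hρ1 : ∀ p, p.Prime → ρ p < 1 := fun p hp => by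
    have : (0 : ℝ) < p := by exact_mod_cast hp.pos
    show ω p / p < 1
    rw [div_lt_one this]
    linarith [hωp' p hp]
  -- sums over blocks
  have hSrho : ∀ i, ∑ p ∈ B i, ρ p ≤ 2 * D := by
    intro i
    have h1 : ∑ p ∈ B i, ρ p ≤ ∑ p ∈ B i, (D : ℝ) * (1 / p) := by
      apply Finset.sum_le_sum
      intro p hp
      have hpp := (mem_blk.mp hp).2
      show ω p / p ≤ _
      rw [mul_one_div]
      exact div_le_div_of_nonneg_right (hωD' p hpp) (by positivity)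
    refine h1.trans ?_
    rw [← Finset.mul_sum]
    have := sum_blk_le (D + i)
    nlinarith
  have hbig : ∀ i, ∀ p ∈ B i, ρ p ≤ 1 / 2 := by
    intro i p hp
    have hp' := mem_blk.mp hp
    have h1 : 2 * D ≤ p := by
      have h2 : D < 2 ^ D := Nat.lt_two_pow_self
      have h3 : 2 ^ D ≤ 2 ^ (D + i) := Nat.pow_le_pow_right (by norm_num) (by omega)
      have h4 : ∀ k : ℕ, 1 ≤ k → 2 * k ≤ 2 ^ k := by
        intro k hk
        obtain ⟨j, rfl⟩ : ∃ j, k = j + 1 := ⟨k - 1, by omega⟩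
        have : j < 2 ^ j := Nat.lt_two_pow_self
        rw [pow_succ]
        omega
      have h5 := h4 (2 ^ (D + i)) Nat.one_le_two_pow
      omega
    have h2 : (0 : ℝ) < p := by exact_mod_cast hp'.2.pos
    show ω p / p ≤ 1 / 2
    rw [div_le_div_iff₀ h2 (by norm_num)]
    have h3 : (2 * D : ℝ) ≤ p := by exact_mod_cast h1
    have := hωD' p hp'.2
    linarith
  have hWB : ∀ i, ((1 : ℝ) / 2) ^ (4 * D) ≤ W ρ (B i) := by
    intro i
    have := W_lower (B := B i) (fun p _ => hρ0 p) (hbig i) (hSrho i)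
    rw [show (2 : ℝ) * (2 * D) = ((4 * D : ℕ) : ℝ) by push_cast; ring, Real.rpow_natCast] at this
    exact this
  -- error ratio
  have hratio : ∀ i ∈ range n, E ρ (B i) (b i + 1) / W ρ (B i) ≤ (1 / 4) * (1 / 16) ^ (n - 1 - i) := by
    intro i _
    have hWpos : 0 < ((1 : ℝ) / 2) ^ (4 * D) := by positivity
    have hWpos' : 0 < W ρ (B i) := lt_of_lt_of_le hWpos (hWB i)
    have h1 := E_le ρ (B i) (fun p _ => hρ0 p) (b i + 1)
    have h2 : (∑ p ∈ B i, ρ p) ^ (b i + 1) ≤ (2 * D : ℝ) ^ (b i + 1) :=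
      pow_le_pow_left₀ (Finset.sum_nonneg fun p _ => hρ0 p) (hSrho i) _
    have h3 : (0 : ℝ) < ((b i + 1).factorial : ℝ) := by exact_mod_cast Nat.factorial_pos _
    have h4 : E ρ (B i) (b i + 1) ≤ (2 * D : ℝ) ^ (b i + 1) / (b i + 1).factorial := by
      rw [le_div_iff₀ h3]
      linarith
    have h5 := h4.trans (pow_div_factorial_le D (b i + 1))
    rw [div_le_iff₀ hWpos']
    refine h5.trans ?_
    have h6 : (2 : ℝ) ^ (12 * D) / 4 ^ (b i + 1)
        = (1 / 4) * (1 / 16) ^ (n - 1 - i) * (1 / 2) ^ (4 * D) := by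
      have h7 : (4 : ℝ) ^ (b i + 1) = 4 * 16 ^ (n - 1 - i) * (2 ^ (4 * D) * 2 ^ (12 * D)) := by
        simp only [hbdef]
        rw [← pow_add, show 8 * D + 2 * (n - 1 - i) + 1 = 1 + 2 * (n - 1 - i) + 8 * D by ring,
          pow_add, pow_add, pow_mul, show 4 * D + 12 * D = 2 * (8 * D) by ring, pow_mul 2 2]
        norm_num
      rw [h7, one_div_pow, one_div_pow]
      have : (2 : ℝ) ^ (12 * D) ≠ 0 := by positivity
      field_simp
    rw [h6]
    exact mul_le_mul_of_nonneg_left (hWB i) (by positivity)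
  have hgeom : ∑ i ∈ range n, (1 / 4 : ℝ) * (1 / 16) ^ (n - 1 - i) ≤ 1 / 2 := by
    rw [Finset.sum_range_reflect (fun j => (1 / 4 : ℝ) * (1 / 16) ^ j) n, ← Finset.mul_sum]
    have h1 : ∑ i ∈ range n, ((1 : ℝ) / 16) ^ i ≤ 2 := by
      have := geom_sum_eq (x := (1 : ℝ) / 16) (by norm_num) n
      rw [this, div_le_iff_of_neg (by norm_num)]
      have : (0 : ℝ) ≤ (1 / 16) ^ n := by positivity
      linarith
    linarith
  have hSum : ∑ i ∈ range n, E ρ (B i) (b i + 1) / W ρ (B i) ≤ 1 / 2 :=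
    (Finset.sum_le_sum hratio).trans hgeom
  -- apply the abstract sieve
  have hmain := brun_hooley_upper (B0 := small D) (B := B) (b := b) hb n (fun i _ => disj D i)
    (Ico 1 (1 + X)) (fun x p => if Q p x then (1 : ℝ) else 0)
    (fun x p => by by_cases h : Q p x <;> simp [h]) (X : ℝ) (by positivity) ρ ω
    (fun p _ => hρ0 p) (fun p hp => hρ1 p ((mem_PP_iff D n p).mp hp).1) (fun p _ => hω0 p)
    (fun T hT => count_estimate Q hQ T (fun p hp => ((mem_PP_iff D n p).mp (hT hp)).1) X)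
    hSum
  -- rewrite the right-hand side
  have hR : ((Ico 1 (1 + X)).filter (fun x => ∀ p ∈ PP (small D) B n,
      (if Q p x then (1 : ℝ) else 0) = 0))
      = ((Ico 1 (1 + X)).filter (fun x => ∀ p : ℕ, p.Prime → p ≤ 2 ^ (2 ^ (D + n)) → ¬ Q p x)) := by
    apply Finset.filter_congr
    intro x _
    constructor
    · intro h p hp hp'
      have := h p ((mem_PP_iff D n p).mpr ⟨hp, hp'⟩)
      simpa using this
    · intro h p hp
      have hp' := (mem_PP_iff D n p).mp hp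
      have := h p hp'.1 hp'.2
      simpa using this
  rw [hR] at hmain
  have hPP : PP (small D) B n = (range (2 ^ (2 ^ (D + n)) + 1)).filter Nat.Prime := by
    ext p
    rw [mem_PP_iff, Finset.mem_filter, Finset.mem_range, Nat.lt_succ_iff, and_comm]
  have hWeq : W ρ (PP (small D) B n) = ∏ p ∈ (range (2 ^ (2 ^ (D + n)) + 1)).filter Nat.Prime,
      (1 - (((range p).filter (Q p)).card : ℝ) / p) := by
    rw [hPP]
    rfl
  rw [hWeq] at hmain
  -- error term
  have hV : ∀ i, (1 + ∑ p ∈ B i, ω p) ≤ 2 ^ (3 * 2 ^ (D + i)) := by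
    intro i
    have h1 : ∑ p ∈ B i, ω p ≤ ∑ _p ∈ B i, (D : ℝ) := by
      apply Finset.sum_le_sum
      intro p hp
      exact hωD' p (mem_blk.mp hp).2
    rw [Finset.sum_const, nsmul_eq_mul] at h1
    have h2 := card_blk_le (D + i)
    have h3 : (((B i).card + 1 : ℕ) : ℝ) ≤ ((2 ^ (2 ^ (D + i + 1)) : ℕ) : ℝ) := by exact_mod_cast h2
    push_cast at h3
    have h4 : (D : ℝ) ≤ 2 ^ (2 ^ (D + i)) := by
      have h2 : D < 2 ^ D := Nat.lt_two_pow_self
      have h3 : 2 ^ D ≤ 2 ^ (D + i) := Nat.pow_le_pow_right (by norm_num) (by omega)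
      have h4 : 2 ^ (D + i) < 2 ^ (2 ^ (D + i)) := Nat.lt_two_pow_self
      have h5 : D ≤ 2 ^ (2 ^ (D + i)) := by omega
      exact_mod_cast h5
    calc (1 + ∑ p ∈ B i, ω p) ≤ (D : ℝ) * ((B i).card + 1) := by nlinarith
      _ ≤ 2 ^ (2 ^ (D + i)) * 2 ^ (2 ^ (D + i + 1)) :=
          mul_le_mul h4 h3 (by positivity) (by positivity)
      _ = 2 ^ (3 * 2 ^ (D + i)) := by
          rw [← pow_add]
          congr 1
          rw [pow_succ]
          ring
  have hV0 : ∀ i, 0 ≤ (1 + ∑ p ∈ B i, ω p) := fun i =>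
    add_nonneg zero_le_one (Finset.sum_nonneg fun p _ => hω0 p)
  have herr1 : ∏ p ∈ small D, (1 + ω p) ≤ (1 + D : ℝ) ^ (small D).card := by
    rw [← Finset.prod_const]
    apply Finset.prod_le_prod
    · intro p _; linarith [hω0 p]
    · intro p hp
      have hpp : p.Prime := (Finset.mem_filter.mp hp).2
      linarith [hωD' p hpp]
  have herr2 : ∏ i ∈ range n, (1 + ∑ p ∈ B i, ω p) ^ (b i) ≤ 2 ^ (2 ^ (D + n) * (24 * D + 6)) := by
    calc ∏ i ∈ range n, (1 + ∑ p ∈ B i, ω p) ^ (b i)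
        ≤ ∏ i ∈ range n, ((2 : ℝ) ^ (3 * 2 ^ (D + i))) ^ (b i) := by
          apply Finset.prod_le_prod
          · intro i _; exact pow_nonneg (hV0 i) _
          · intro i _; exact pow_le_pow_left₀ (hV0 i) (hV i) _
      _ = 2 ^ (∑ i ∈ range n, 3 * 2 ^ (D + i) * b i) := by
          rw [← Finset.prod_pow_eq_pow_sum]
          apply Finset.prod_congr rfl
          intro i _
          rw [← pow_mul]
      _ ≤ 2 ^ (2 ^ (D + n) * (24 * D + 6)) := by
          apply pow_le_pow_right₀ (by norm_num)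
          have h1 := sum_weights D n
          have h2 : ∑ i ∈ range n, 3 * 2 ^ (D + i) * b i
              = 3 * 2 ^ D * ∑ i ∈ range n, 2 ^ i * (8 * D + 2 * (n - 1 - i)) := by
            rw [Finset.mul_sum]
            apply Finset.sum_congr rfl
            intro i _
            simp only [hbdef]
            rw [pow_add]
            ring
          rw [h2, pow_add]
          calc 3 * 2 ^ D * ∑ i ∈ range n, 2 ^ i * (8 * D + 2 * (n - 1 - i))
              ≤ 3 * 2 ^ D * (2 ^ n * (8 * D + 2)) := Nat.mul_le_mul_left _ h1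
            _ = 2 ^ D * 2 ^ n * (24 * D + 6) := by ring
  have herr : (∏ p ∈ small D, (1 + ω p)) * (∏ i ∈ range n, (1 + ∑ p ∈ B i, ω p) ^ (b i))
      ≤ (1 + D : ℝ) ^ (small D).card * (n + 1) * 2 ^ (2 ^ (D + n) * (24 * D + 8)) := by
    have g1 : 0 ≤ ∏ i ∈ range n, (1 + ∑ p ∈ B i, ω p) ^ (b i) :=
      Finset.prod_nonneg fun i _ => pow_nonneg (hV0 i) _
    have g3 : (1 : ℝ) ≤ (n + 1) * 2 ^ (2 ^ (D + n) * 2) := by
      have h1 : (1 : ℝ) ≤ 2 ^ (2 ^ (D + n) * 2) := one_le_pow₀ (by norm_num)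
      have h2 : (0 : ℝ) ≤ n := by positivity
      nlinarith
    calc _ ≤ ((1 + D : ℝ) ^ (small D).card * 2 ^ (2 ^ (D + n) * (24 * D + 6))) * 1 := by
          rw [mul_one]
          exact mul_le_mul herr1 herr2 g1 (by positivity)
      _ ≤ ((1 + D : ℝ) ^ (small D).card * 2 ^ (2 ^ (D + n) * (24 * D + 6))) *
          ((n + 1) * 2 ^ (2 ^ (D + n) * 2)) := by
          exact mul_le_mul_of_nonneg_left g3 (by positivity)
      _ = _ := by
          rw [show 2 ^ (D + n) * (24 * D + 8) = 2 ^ (D + n) * (24 * D + 6) + 2 ^ (D + n) * 2 by ring,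
            pow_add 2 (2 ^ (D + n) * (24 * D + 6))]
          ring
  linarith

end Pool.Agent.Lib.MP_0da313_nt
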